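import Pool.Agent.MP_13e7a1_an.H82.Spec

/-!
Pointwise linear algebra of a complex structure on four-space: reduction to the standard
structure by an adapted basis.
-/

open scoped Matrix
open Pool.Agent.MP_13e7a1_an.H82

noncomputable section

namespace Pool.Agent.MP_13e7a1_an.H98

/-- The standard complex structure. -/
def J0 : Mat := !![0, -1, 0, 0; 1, 0, 0, 0; 0, 0, 0, -1; 0, 0, 1, 0]

theorem exists_out (v u : V) : ∃ w : V, ∀ a b : ℝ, w ≠ a • v + b • u := by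
  by_contra h
  push Not at h
  have hsp : Submodule.span ℝ (Set.range ![v, u]) = ⊤ := by
    rw [eq_top_iff]
    intro w _
    obtain ⟨a, b, rfl⟩ := h w
    refine Submodule.add_mem _ (Submodule.smul_mem _ _ (Submodule.subset_span ⟨0, rfl⟩))
      (Submodule.smul_mem _ _ (Submodule.subset_span ⟨1, rfl⟩))
  have h1 := finrank_range_le_card (R := ℝ) ![v, u]
  rw [Set.finrank, hsp, finrank_top] at h1
  simp at h1

theorem exists_adapted (J : Mat) (hJ : J * J = -1) : ∃ B : Mat, B.det ≠ 0 ∧ J * B = B * J0 := by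
  have hJJ : ∀ z : V, J *ᵥ (J *ᵥ z) = -z := by
    intro z
    rw [Matrix.mulVec_mulVec, hJ, Matrix.neg_mulVec, Matrix.one_mulVec]
  set v : V := Pi.single 0 1 with hv
  have hv0 : v ≠ 0 := by
    intro h
    have := congrFun h 0
    simp [hv] at this
  obtain ⟨w, hw⟩ := exists_out v (J *ᵥ v)
  set B : Mat := Matrix.of fun i j => (![v, J *ᵥ v, w, J *ᵥ w] j) i with hB
  have hBz : ∀ z : V, B *ᵥ z = z 0 • v + z 1 • (J *ᵥ v) + z 2 • w + z 3 • (J *ᵥ w) := by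
    intro z
    funext i
    simp only [hB, Matrix.mulVec, dotProduct, Fin.sum_univ_four, Matrix.of_apply, Pi.add_apply,
      Pi.smul_apply, smul_eq_mul, Matrix.cons_val_zero, Matrix.cons_val_one, Matrix.cons_val]
    ring
  refine ⟨B, ?_, ?_⟩
  · intro hdet
    obtain ⟨z, hz0, hz⟩ := Matrix.exists_mulVec_eq_zero_iff.2 hdet
    rw [hBz] at hz
    have hz2 : z 0 • (J *ᵥ v) - z 1 • v + z 2 • (J *ᵥ w) - z 3 • w = 0 := by
      have := congrArg (fun y => J *ᵥ y) hz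
      simp only [Matrix.mulVec_add, Matrix.mulVec_smul, hJJ, Matrix.mulVec_zero] at this
      rw [← this]
      module
    have hcd : z 2 ^ 2 + z 3 ^ 2 = 0 := by
      by_contra hne
      apply hw (-(z 2 * z 0 + z 3 * z 1) / (z 2 ^ 2 + z 3 ^ 2))
        (-(z 2 * z 1 - z 3 * z 0) / (z 2 ^ 2 + z 3 ^ 2))
      funext i
      have e1 := congrFun hz i
      have e2 := congrFun hz2 i
      simp only [Pi.add_apply, Pi.sub_apply, Pi.smul_apply, smul_eq_mul, Pi.zero_apply] at e1 e2 ⊢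
      field_simp
      linear_combination z 2 * e1 - z 3 * e2
    have h2 : z 2 = 0 := by nlinarith [sq_nonneg (z 2), sq_nonneg (z 3)]
    have h3 : z 3 = 0 := by nlinarith [sq_nonneg (z 2), sq_nonneg (z 3)]
    have hab : z 0 ^ 2 + z 1 ^ 2 = 0 := by
      have e1 := congrFun hz 0
      have e2 := congrFun hz2 0
      simp only [Pi.add_apply, Pi.sub_apply, Pi.smul_apply, smul_eq_mul, Pi.zero_apply, h2, h3,
        hv, Pi.single_eq_same] at e1 e2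
      linear_combination z 0 * e1 - z 1 * e2
    have h0 : z 0 = 0 := by nlinarith [sq_nonneg (z 0), sq_nonneg (z 1)]
    have h1 : z 1 = 0 := by nlinarith [sq_nonneg (z 0), sq_nonneg (z 1)]
    apply hz0
    funext i
    fin_cases i
    · exact h0
    · exact h1
    · exact h2
    · exact h3
  · rw [Matrix.ext_iff_mulVec]
    intro z
    rw [← Matrix.mulVec_mulVec, ← Matrix.mulVec_mulVec, hBz, hBz]
    have e0 : (J0 *ᵥ z) 0 = -z 1 := by simp [J0, Matrix.mulVec, dotProduct, Fin.sum_univ_four]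
    have e1 : (J0 *ᵥ z) 1 = z 0 := by simp [J0, Matrix.mulVec, dotProduct, Fin.sum_univ_four]
    have e2 : (J0 *ᵥ z) 2 = -z 3 := by simp [J0, Matrix.mulVec, dotProduct, Fin.sum_univ_four]
    have e3 : (J0 *ᵥ z) 3 = z 2 := by simp [J0, Matrix.mulVec, dotProduct, Fin.sum_univ_four]
    rw [e0, e1, e2, e3]
    simp only [Matrix.mulVec_add, Matrix.mulVec_smul, hJJ]
    module

/-- An antisymmetric matrix in terms of its six upper entries. -/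
theorem anti_eq (β : Mat) (h : βᵀ = -β) :
    β = !![0, β 0 1, β 0 2, β 0 3; -β 0 1, 0, β 1 2, β 1 3; -β 0 2, -β 1 2, 0, β 2 3;
      -β 0 3, -β 1 3, -β 2 3, 0] := by
  have e : ∀ i j, β j i = -β i j := fun i j => by
    have := congrFun (congrFun h i) j
    simpa using this
  have d : ∀ i, β i i = 0 := fun i => by linarith [e i i]
  ext i j
  fin_cases i <;> fin_cases j <;> simp [d] <;> exact e _ _

theorem det_four (B : Mat) : B.det =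
    B 0 0 * (B 1 1 * (B 2 2 * B 3 3 - B 2 3 * B 3 2) - B 1 2 * (B 2 1 * B 3 3 - B 2 3 * B 3 1)
      + B 1 3 * (B 2 1 * B 3 2 - B 2 2 * B 3 1))
    - B 0 1 * (B 1 0 * (B 2 2 * B 3 3 - B 2 3 * B 3 2) - B 1 2 * (B 2 0 * B 3 3 - B 2 3 * B 3 0)
      + B 1 3 * (B 2 0 * B 3 2 - B 2 2 * B 3 0))
    + B 0 2 * (B 1 0 * (B 2 1 * B 3 3 - B 2 3 * B 3 1) - B 1 1 * (B 2 0 * B 3 3 - B 2 3 * B 3 0)
      + B 1 3 * (B 2 0 * B 3 1 - B 2 1 * B 3 0))
    - B 0 3 * (B 1 0 * (B 2 1 * B 3 2 - B 2 2 * B 3 1) - B 1 1 * (B 2 0 * B 3 2 - B 2 2 * B 3 0)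
      + B 1 2 * (B 2 0 * B 3 1 - B 2 1 * B 3 0)) := by
  rw [Matrix.det_succ_row_zero]
  simp [Fin.sum_univ_succ, Matrix.det_fin_three, Fin.succAbove]
  ring

theorem conj_apply (B β : Mat) (h : βᵀ = -β) (i j : Fin 4) : (Bᵀ * β * B) i j =
    β 0 1 * (B 0 i * B 1 j - B 1 i * B 0 j) + β 0 2 * (B 0 i * B 2 j - B 2 i * B 0 j)
    + β 0 3 * (B 0 i * B 3 j - B 3 i * B 0 j) + β 1 2 * (B 1 i * B 2 j - B 2 i * B 1 j)
    + β 1 3 * (B 1 i * B 3 j - B 3 i * B 1 j) + β 2 3 * (B 2 i * B 3 j - B 3 i * B 2 j) := by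
  have e : ∀ i j, β j i = -β i j := fun i j => by
    have := congrFun (congrFun h i) j
    simpa using this
  have d : ∀ i, β i i = 0 := fun i => by linarith [e i i]
  simp only [Matrix.mul_apply, Fin.sum_univ_four, Matrix.transpose_apply, d, e 0 1, e 0 2, e 0 3,
    e 1 2, e 1 3, e 2 3]
  ring

theorem pf_conj (B β γ : Mat) (hβ : βᵀ = -β) (hγ : γᵀ = -γ) :
    pf (Bᵀ * β * B) (Bᵀ * γ * B) = B.det * pf β γ := by
  simp only [pf, conj_apply B β hβ, conj_apply B γ hγ, det_four]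
  ring

theorem conj_anti (B β : Mat) (h : βᵀ = -β) : (Bᵀ * β * B)ᵀ = -(Bᵀ * β * B) := by
  rw [Matrix.transpose_mul, Matrix.transpose_mul, Matrix.transpose_transpose, h]
  simp [Matrix.mul_assoc]

theorem conj_J {J B : Mat} (hB : J * B = B * J0) (β : Mat) :
    J0ᵀ * (Bᵀ * β * B) * J0 = Bᵀ * (Jᵀ * β * J) * B := by
  calc J0ᵀ * (Bᵀ * β * B) * J0 = (B * J0)ᵀ * β * (B * J0) := by
        rw [Matrix.transpose_mul]; simp only [Matrix.mul_assoc]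
    _ = (J * B)ᵀ * β * (J * B) := by rw [hB]
    _ = Bᵀ * (Jᵀ * β * J) * B := by
        rw [Matrix.transpose_mul]; simp only [Matrix.mul_assoc]

theorem conj_quad {J B : Mat} (hB : J * B = B * J0) (β : Mat) (Z : V) :
    Z ⬝ᵥ ((Bᵀ * β * B) *ᵥ (J0 *ᵥ Z)) = (B *ᵥ Z) ⬝ᵥ (β *ᵥ (J *ᵥ (B *ᵥ Z))) := by
  have h1 : J *ᵥ (B *ᵥ Z) = B *ᵥ (J0 *ᵥ Z) := by
    rw [Matrix.mulVec_mulVec, Matrix.mulVec_mulVec, hB]
  rw [h1, ← Matrix.mulVec_mulVec, ← Matrix.mulVec_mulVec, Matrix.dotProduct_mulVec,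
    Matrix.vecMul_transpose]

theorem J0_conj (β : Mat) :
    (J0ᵀ * β * J0) 0 1 = -β 1 0 ∧ (J0ᵀ * β * J0) 0 2 = β 1 3 ∧ (J0ᵀ * β * J0) 0 3 = -β 1 2 ∧
      (J0ᵀ * β * J0) 2 3 = -β 3 2 := by
  refine ⟨?_, ?_, ?_, ?_⟩ <;> simp [J0, Matrix.mul_apply, Fin.sum_univ_four]

theorem inv0 {β : Mat} (h : IsInv J0 β) : β 1 3 = β 0 2 ∧ β 1 2 = -β 0 3 := by
  obtain ⟨-, h2, h3, -⟩ := J0_conj β
  rw [h.2] at h2 h3
  constructor <;> linarith

theorem anti0 {β : Mat} (h : IsAnti J0 β) :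
    β 0 1 = 0 ∧ β 2 3 = 0 ∧ β 1 3 = -β 0 2 ∧ β 1 2 = β 0 3 := by
  obtain ⟨h1, h2, h3, h4⟩ := J0_conj β
  rw [h.2] at h1 h2 h3 h4
  have e : ∀ i j, β j i = -β i j := fun i j => by
    have := congrFun (congrFun h.1 i) j
    simpa using this
  simp only [Matrix.neg_apply] at h1 h2 h3 h4
  refine ⟨?_, ?_, ?_, ?_⟩ <;> linarith [e 0 1, e 2 3]

theorem quad0 {β : Mat} (h : IsInv J0 β) (Z : V) :
    Z ⬝ᵥ (β *ᵥ (J0 *ᵥ Z)) = β 0 1 * (Z 0 ^ 2 + Z 1 ^ 2) + β 2 3 * (Z 2 ^ 2 + Z 3 ^ 2)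
      + 2 * β 0 3 * (Z 0 * Z 2 + Z 1 * Z 3) + 2 * β 0 2 * (Z 1 * Z 2 - Z 0 * Z 3) := by
  obtain ⟨h1, h2⟩ := inv0 h
  have e : ∀ i j, β j i = -β i j := fun i j => by
    have := congrFun (congrFun h.1 i) j
    simpa using this
  have d : ∀ i, β i i = 0 := fun i => by linarith [e i i]
  have e0 : (J0 *ᵥ Z) 0 = -Z 1 := by simp [J0, Matrix.mulVec, dotProduct, Fin.sum_univ_four]
  have e1 : (J0 *ᵥ Z) 1 = Z 0 := by simp [J0, Matrix.mulVec, dotProduct, Fin.sum_univ_four]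
  have e2 : (J0 *ᵥ Z) 2 = -Z 3 := by simp [J0, Matrix.mulVec, dotProduct, Fin.sum_univ_four]
  have e3 : (J0 *ᵥ Z) 3 = Z 2 := by simp [J0, Matrix.mulVec, dotProduct, Fin.sum_univ_four]
  generalize J0 *ᵥ Z = Y at e0 e1 e2 e3
  simp only [Matrix.mulVec, dotProduct, Fin.sum_univ_four, e0, e1, e2, e3, d, e 0 1, e 0 2, e 0 3,
    e 1 2, e 1 3, e 2 3, h1, h2]
  ring

theorem pf0 {β γ : Mat} (hβ : IsInv J0 β) (hγ : IsInv J0 γ) :
    pf β γ = β 0 1 * γ 2 3 + β 2 3 * γ 0 1 - 2 * β 0 2 * γ 0 2 - 2 * β 0 3 * γ 0 3 := by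
  obtain ⟨h1, h2⟩ := inv0 hβ
  obtain ⟨h3, h4⟩ := inv0 hγ
  simp only [pf, h1, h2, h3, h4]
  ring

theorem pos0 {β : Mat} (h : IsPos J0 β) :
    0 ≤ β 0 1 ∧ 0 ≤ β 2 3 ∧ β 0 2 ^ 2 + β 0 3 ^ 2 ≤ β 0 1 * β 2 3 := by
  have hq := fun Z => (quad0 h.1 Z) ▸ h.2 Z
  have hp : 0 ≤ β 0 1 := by simpa using hq ![1, 0, 0, 0]
  have hr : 0 ≤ β 2 3 := by simpa using hq ![0, 0, 1, 0]
  refine ⟨hp, hr, ?_⟩
  have hd : discrim (β 0 1) (2 * (β 0 2 ^ 2 + β 0 3 ^ 2)) (β 2 3 * (β 0 2 ^ 2 + β 0 3 ^ 2)) ≤ 0 := by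
    apply discrim_le_zero
    intro t
    have := hq ![t, 0, β 0 3, -β 0 2]
    simp only [Matrix.cons_val_zero, Matrix.cons_val_one, Matrix.cons_val] at this
    nlinarith [this]
  rw [discrim] at hd
  by_cases h0 : β 0 2 ^ 2 + β 0 3 ^ 2 = 0
  · rw [h0]; positivity
  · have hpos : 0 < β 0 2 ^ 2 + β 0 3 ^ 2 := lt_of_le_of_ne (by positivity) (Ne.symm h0)
    by_contra hlt
    push Not at hlt
    nlinarith

theorem def0 {β : Mat} (h : IsInv J0 β) (hd : ∀ Z : V, Z ≠ 0 → 0 < Z ⬝ᵥ (β *ᵥ (J0 *ᵥ Z))) :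
    0 < β 0 1 ∧ 0 < β 2 3 ∧ β 0 2 ^ 2 + β 0 3 ^ 2 < β 0 1 * β 2 3 := by
  have hq := fun Z hZ => (quad0 h Z) ▸ hd Z hZ
  have hp : 0 < β 0 1 := by
    simpa using hq ![1, 0, 0, 0] (fun h => by simpa using congrFun h 0)
  have hr : 0 < β 2 3 := by
    simpa using hq ![0, 0, 1, 0] (fun h => by simpa using congrFun h 2)
  refine ⟨hp, hr, ?_⟩
  have := hq ![-β 0 3, -β 0 2, β 0 1, 0] (fun h => hp.ne' (by simpa using congrFun h 2))
  simp only [Matrix.cons_val_zero, Matrix.cons_val_one, Matrix.cons_val] at this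
  by_contra hle
  push Not at hle
  nlinarith

theorem mixed_nonneg {p q a b p' q' a' b' : ℝ} (hp : 0 ≤ p) (hq : 0 ≤ q) (h : a ^ 2 + b ^ 2 ≤ p * q)
    (hp' : 0 ≤ p') (hq' : 0 ≤ q') (h' : a' ^ 2 + b' ^ 2 ≤ p' * q') :
    0 ≤ p * q' + q * p' - 2 * a * a' - 2 * b * b' := by
  have h1 : (2 * a * a' + 2 * b * b') ^ 2 ≤ (p * q' + q * p') ^ 2 := by
    have c1 : (a * a' + b * b') ^ 2 ≤ (a ^ 2 + b ^ 2) * (a' ^ 2 + b' ^ 2) := by
      nlinarith [sq_nonneg (a * b' - b * a')]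
    have c2 : (a ^ 2 + b ^ 2) * (a' ^ 2 + b' ^ 2) ≤ (p * q) * (p' * q') :=
      mul_le_mul h h' (by positivity) (by positivity)
    nlinarith [sq_nonneg (p * q' - q * p')]
  have h2 := abs_le_of_sq_le_sq' h1 (by positivity)
  linarith [h2.2]

theorem mixed_zero {p q a b p' q' a' b' : ℝ} (hp : 0 ≤ p) (hq : 0 ≤ q) (h : a ^ 2 + b ^ 2 ≤ p * q)
    (hp' : 0 < p') (hq' : 0 < q') (h' : a' ^ 2 + b' ^ 2 < p' * q')
    (h0 : p * q' + q * p' - 2 * a * a' - 2 * b * b' = 0) : p = 0 ∧ q = 0 ∧ a = 0 ∧ b = 0 := by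
  have c1 : (a * a' + b * b') ^ 2 ≤ (a ^ 2 + b ^ 2) * (a' ^ 2 + b' ^ 2) := by
    nlinarith [sq_nonneg (a * b' - b * a')]
  have c2 : (a ^ 2 + b ^ 2) * (a' ^ 2 + b' ^ 2) ≤ (p * q) * (a' ^ 2 + b' ^ 2) :=
    mul_le_mul_of_nonneg_right h (by positivity)
  have c3 : (p * q' + q * p') ^ 2 = 4 * (a * a' + b * b') ^ 2 := by
    have : p * q' + q * p' = 2 * (a * a' + b * b') := by linarith
    rw [this]; ring
  have c4 : p * q * (p' * q' - (a' ^ 2 + b' ^ 2)) ≤ 0 := by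
    nlinarith [sq_nonneg (p * q' - q * p')]
  have c5 : p * q = 0 := by
    have hpq : 0 ≤ p * q := mul_nonneg hp hq
    by_contra hne
    have : 0 < p * q * (p' * q' - (a' ^ 2 + b' ^ 2)) :=
      mul_pos (lt_of_le_of_ne hpq (Ne.symm hne)) (by linarith)
    linarith
  have ha : a = 0 := by nlinarith [sq_nonneg a, sq_nonneg b]
  have hb : b = 0 := by nlinarith [sq_nonneg a, sq_nonneg b]
  rw [ha, hb] at h0
  have e1 : 0 ≤ p * q' := mul_nonneg hp hq'.le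
  have e2 : 0 ≤ q * p' := mul_nonneg hq hp'.le
  have e3 : p * q' = 0 := by linarith
  have e4 : q * p' = 0 := by linarith
  exact ⟨(mul_eq_zero.1 e3).resolve_right hq'.ne', (mul_eq_zero.1 e4).resolve_right hp'.ne', ha, hb⟩

theorem om_inv {J : Mat} (hJ : J * J = -1) : IsInv J (om J) := by
  constructor
  · simp [om]
  · have h1 : Jᵀ * Jᵀ = -1 := by
      rw [← Matrix.transpose_mul, hJ]; simp
    rw [om, Matrix.mul_sub, Matrix.sub_mul, h1, Matrix.mul_assoc, hJ]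
    simp only [Matrix.neg_mul, Matrix.one_mul, Matrix.mul_neg, Matrix.mul_one]
    abel

theorem om_quad {J : Mat} (hJ : J * J = -1) (Z : V) :
    Z ⬝ᵥ (om J *ᵥ (J *ᵥ Z)) = (J *ᵥ Z) ⬝ᵥ (J *ᵥ Z) + Z ⬝ᵥ Z := by
  have hJJ : J *ᵥ (J *ᵥ Z) = -Z := by
    rw [Matrix.mulVec_mulVec, hJ, Matrix.neg_mulVec, Matrix.one_mulVec]
  rw [om, Matrix.sub_mulVec, dotProduct_sub, hJJ, Matrix.dotProduct_mulVec,
    Matrix.vecMul_transpose]
  simp

theorem dot_self_nonneg (Z : V) : 0 ≤ Z ⬝ᵥ Z :=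
  Finset.sum_nonneg fun i _ => mul_self_nonneg (Z i)

theorem om_pos {J : Mat} (hJ : J * J = -1) : IsPos J (om J) :=
  ⟨om_inv hJ, fun Z => by
    rw [om_quad hJ]
    exact add_nonneg (dot_self_nonneg _) (dot_self_nonneg _)⟩

theorem conj_inv {J B β : Mat} (hB : J * B = B * J0) (h : IsInv J β) : IsInv J0 (Bᵀ * β * B) :=
  ⟨conj_anti B β h.1, by rw [conj_J hB, h.2]⟩

theorem conj_isAnti {J B β : Mat} (hB : J * B = B * J0) (h : IsAnti J β) :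
    IsAnti J0 (Bᵀ * β * B) :=
  ⟨conj_anti B β h.1, by rw [conj_J hB, h.2]; simp⟩

theorem conj_pos {J B β : Mat} (hB : J * B = B * J0) (h : IsPos J β) : IsPos J0 (Bᵀ * β * B) :=
  ⟨conj_inv hB h.1, fun Z => by rw [conj_quad hB]; exact h.2 _⟩

theorem conj_om {J B : Mat} (hJ : J * J = -1) (hdet : B.det ≠ 0) (hB : J * B = B * J0) :
    0 < (Bᵀ * om J * B) 0 1 ∧ 0 < (Bᵀ * om J * B) 2 3 ∧
      (Bᵀ * om J * B) 0 2 ^ 2 + (Bᵀ * om J * B) 0 3 ^ 2 <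
        (Bᵀ * om J * B) 0 1 * (Bᵀ * om J * B) 2 3 := by
  apply def0 (conj_inv hB (om_inv hJ))
  intro Z hZ
  rw [conj_quad hB, om_quad hJ]
  have h1 : B *ᵥ Z ≠ 0 := fun h => hdet (Matrix.exists_mulVec_eq_zero_iff.1 ⟨Z, hZ, h⟩)
  have h2 : (B *ᵥ Z) ⬝ᵥ (B *ᵥ Z) ≠ 0 := fun h => h1 (dotProduct_self_eq_zero.1 h)
  have h3 := lt_of_le_of_ne (dot_self_nonneg _) h2.symm
  linarith [dot_self_nonneg (J *ᵥ (B *ᵥ Z))]

theorem det_om {J B : Mat} (hJ : J * J = -1) (hdet : B.det ≠ 0) (hB : J * B = B * J0) :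
    0 < B.det * pf (om J) (om J) := by
  obtain ⟨-, -, h3⟩ := conj_om hJ hdet hB
  rw [← pf_conj B _ _ (om_inv hJ).1 (om_inv hJ).1,
    pf0 (conj_inv hB (om_inv hJ)) (conj_inv hB (om_inv hJ))]
  nlinarith

theorem sign_transfer {o d w x : ℝ} (h1 : 0 < o * w) (h2 : 0 < d * w) (h3 : 0 ≤ d * x) :
    0 ≤ o * x := by
  have h4 : 0 < (o * w) * (d * w) := mul_pos h1 h2
  have hd : d ≠ 0 := by
    rintro rfl
    simp at h2
  have hw : w ≠ 0 := by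
    rintro rfl
    simp at h2
  have h5 : 0 < o * d := by
    have : (o * w) * (d * w) = (o * d) * w ^ 2 := by ring
    rw [this] at h4
    exact (mul_pos_iff_of_pos_right (by positivity)).1 h4
  have h6 : 0 ≤ (o * d) * (d * x) := mul_nonneg h5.le h3
  have h7 : (o * d) * (d * x) = (o * x) * d ^ 2 := by ring
  rw [h7] at h6
  exact nonneg_of_mul_nonneg_left h6 (by positivity)

theorem linA : SLinA where
  ne := by
    intro J hJ h
    obtain ⟨B, hdet, hB⟩ := exists_adapted J hJ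
    have := det_om hJ hdet hB
    rw [h] at this
    simp at this
  pos_pos := by
    intro J o hJ ho β γ hβ hγ
    obtain ⟨B, hdet, hB⟩ := exists_adapted J hJ
    refine sign_transfer ho (det_om hJ hdet hB) ?_
    obtain ⟨a1, a2, a3⟩ := pos0 (conj_pos hB hβ)
    obtain ⟨b1, b2, b3⟩ := pos0 (conj_pos hB hγ)
    rw [← pf_conj B _ _ hβ.1.1 hγ.1.1, pf0 (conj_inv hB hβ.1) (conj_inv hB hγ.1)]
    exact mixed_nonneg a1 a2 a3 b1 b2 b3
  anti_nonneg := by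
    intro J o hJ ho β hβ
    obtain ⟨B, hdet, hB⟩ := exists_adapted J hJ
    refine sign_transfer ho (det_om hJ hdet hB) ?_
    obtain ⟨a1, a2, a3, a4⟩ := anti0 (conj_isAnti hB hβ)
    rw [← pf_conj B _ _ hβ.1 hβ.1, pf, a1, a2, a3, a4]
    nlinarith [sq_nonneg ((Bᵀ * β * B) 0 2), sq_nonneg ((Bᵀ * β * B) 0 3)]
  strict := by
    intro J hJ β hβ h0
    obtain ⟨B, hdet, hB⟩ := exists_adapted J hJ
    obtain ⟨a1, a2, a3⟩ := pos0 (conj_pos hB hβ)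
    obtain ⟨b1, b2, b3⟩ := conj_om hJ hdet hB
    have h1 := pf_conj B _ _ hβ.1.1 (om_inv hJ).1
    rw [h0, mul_zero, pf0 (conj_inv hB hβ.1) (conj_inv hB (om_inv hJ))] at h1
    obtain ⟨c1, c2, c3, c4⟩ := mixed_zero a1 a2 a3 b1 b2 b3 h1
    obtain ⟨d1, d2⟩ := inv0 (conj_inv hB hβ.1)
    have hz : Bᵀ * β * B = 0 := by
      rw [anti_eq _ (conj_anti B β hβ.1.1), d1, d2, c1, c2, c3, c4]
      ext i j
      fin_cases i <;> fin_cases j <;> simp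
    have hu : IsUnit B.det := isUnit_iff_ne_zero.2 hdet
    have hu' : IsUnit Bᵀ.det := by rwa [Matrix.det_transpose]
    calc β = (Bᵀ⁻¹ * Bᵀ) * β * (B * B⁻¹) := by
          rw [Matrix.nonsing_inv_mul _ hu', Matrix.mul_nonsing_inv _ hu]; simp
      _ = Bᵀ⁻¹ * (Bᵀ * β * B) * B⁻¹ := by simp only [Matrix.mul_assoc]
      _ = 0 := by rw [hz]; simp

end Pool.Agent.MP_13e7a1_an.H98
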